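import Pool.Agent.Helper94.KC.GoalsC

/-!
# Project KC, packet CN: double counting
-/

set_option autoImplicit false

open scoped Classical
open Finset
open Pool.Agent.Helper94.KC

namespace Pool.Agent.Helper77.KC

variable {V : Type} [Fintype V] {T : Finset (Finset V)}

/-- the degree is the number of triangles -/
lemma dg_eq (hT : Surf T) (x : V) : dg T x = (T.filter (fun t => x ∈ t)).card := by
  have h1 : ∑ y ∈ univ.filter (fun y => (sk T).Adj x y), (T.filter (fun t => x ∈ t ∧ y ∈ t)).card
      = ∑ t ∈ T.filter (fun t => x ∈ t),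
        ((univ.filter (fun y => (sk T).Adj x y)).filter (fun y => y ∈ t)).card := by
    calc ∑ y ∈ univ.filter (fun y => (sk T).Adj x y), (T.filter (fun t => x ∈ t ∧ y ∈ t)).card
        = ∑ y ∈ univ.filter (fun y => (sk T).Adj x y),
          ((T.filter (fun t => x ∈ t)).filter (fun t => y ∈ t)).card :=
          Finset.sum_congr rfl fun y _ => by rw [Finset.filter_filter]
      _ = _ := Finset.sum_card_bipartiteAbove_eq_sum_card_bipartiteBelow (fun (y : V) t => y ∈ t)
  have h2 : ∑ y ∈ univ.filter (fun y => (sk T).Adj x y), (T.filter (fun t => x ∈ t ∧ y ∈ t)).card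
      = 2 * dg T x := by
    rw [Finset.sum_congr rfl (fun y hy => hT.two x y (Finset.mem_filter.mp hy).2),
      Finset.sum_const, smul_eq_mul, mul_comm]
    rfl
  have h3 : ∑ t ∈ T.filter (fun t => x ∈ t),
        ((univ.filter (fun y => (sk T).Adj x y)).filter (fun y => y ∈ t)).card
      = 2 * (T.filter (fun t => x ∈ t)).card := by
    rw [Finset.sum_congr rfl (g := fun _ => 2), Finset.sum_const, smul_eq_mul, mul_comm]
    intro t ht
    obtain ⟨ht1, ht2⟩ := Finset.mem_filter.mp ht
    have : (univ.filter (fun y => (sk T).Adj x y)).filter (fun y => y ∈ t) = t.erase x := by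
      ext y
      simp only [Finset.mem_filter, Finset.mem_univ, true_and, Finset.mem_erase]
      constructor
      · rintro ⟨h, hy⟩
        exact ⟨h.1.symm, hy⟩
      · rintro ⟨h, hy⟩
        exact ⟨⟨Ne.symm h, t, ht1, ht2, hy⟩, hy⟩
    rw [this, Finset.card_erase_of_mem ht2, hT.card t ht1]
  omega

lemma two_edge (hT : Surf T) (e : Finset V) (he : e ∈ ed T) :
    (T.filter (fun t => e ⊆ t)).card = 2 := by
  obtain ⟨-, h2, t, ht, het⟩ := Finset.mem_filter.mp he
  obtain ⟨u, v, huv, rfl⟩ := Finset.card_eq_two.mp h2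
  have := hT.two u v ⟨huv, t, ht, het (by simp), het (by simp)⟩
  rw [← this]
  congr 1
  refine Finset.filter_congr fun s _ => ?_
  rw [Finset.insert_subset_iff, Finset.singleton_subset_iff]

lemma cap_le (hT : Surf T) (W t : Finset V) (ht : t ∈ T) : (t ∩ W).card ≤ 3 := by
  rw [← hT.card t ht]
  exact Finset.card_le_card Finset.inter_subset_left

lemma sum_deg (hT : Surf T) (W : Finset V) :
    ∑ x ∈ W, dg T x = tk T W 1 + 2 * tk T W 2 + 3 * tk T W 3 := by
  have h1 : ∑ x ∈ W, dg T x = ∑ t ∈ T, (t ∩ W).card := by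
    rw [Finset.sum_congr rfl (fun x _ => dg_eq hT x)]
    simp only [Finset.card_filter]
    rw [Finset.sum_comm]
    refine Finset.sum_congr rfl fun t _ => ?_
    rw [← Finset.card_filter, Finset.inter_comm]
    rfl
  rw [h1]
  unfold tk
  simp only [Finset.card_filter]
  rw [Finset.mul_sum, Finset.mul_sum, ← Finset.sum_add_distrib, ← Finset.sum_add_distrib]
  refine Finset.sum_congr rfl fun t ht => ?_
  have := cap_le hT W t ht
  interval_cases h : (t ∩ W).card <;> simp

lemma sum_edge (hT : Surf T) (W : Finset V) :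
    2 * (edW T W).card = tk T W 2 + 3 * tk T W 3 := by
  have h1 : ∑ e ∈ edW T W, (T.filter (fun t => e ⊆ t)).card = 2 * (edW T W).card := by
    have : ∀ e ∈ edW T W, (T.filter (fun t => e ⊆ t)).card = 2 := fun e he =>
      two_edge hT e (Finset.mem_filter.mp he).1
    rw [Finset.sum_congr rfl this, Finset.sum_const, smul_eq_mul, mul_comm]
  have h2 : ∑ e ∈ edW T W, (T.filter (fun t => e ⊆ t)).card =
      ∑ t ∈ T, ((edW T W).filter (fun e => e ⊆ t)).card := by
    simp only [Finset.card_filter]
    rw [Finset.sum_comm]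
  rw [← h1, h2]
  unfold tk
  simp only [Finset.card_filter (fun t => (t ∩ W).card = _)]
  rw [Finset.mul_sum, ← Finset.sum_add_distrib]
  refine Finset.sum_congr rfl fun t ht => ?_
  have h3 : (edW T W).filter (fun e => e ⊆ t) = Finset.powersetCard 2 (t ∩ W) := by
    ext e
    simp only [edW, ed, Finset.mem_filter, Finset.mem_univ, true_and, Finset.mem_powersetCard,
      Finset.subset_inter_iff]
    constructor
    · rintro ⟨⟨⟨h, -⟩, h'⟩, h''⟩
      exact ⟨⟨h'', h'⟩, h⟩
    · rintro ⟨⟨h'', h'⟩, h⟩
      exact ⟨⟨⟨h, t, ht, h''⟩, h'⟩, h''⟩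
  rw [h3, Finset.card_powersetCard]
  have := cap_le hT W t ht
  interval_cases h : (t ∩ W).card <;> simp [Nat.choose]

lemma trW_eq (hT : Surf T) (W : Finset V) : (trW T W).card = tk T W 3 := by
  unfold trW tk
  congr 1
  refine Finset.filter_congr fun t ht => ?_
  constructor
  · intro h
    rw [Finset.inter_eq_left.mpr h, hT.card t ht]
  · intro h
    have h1 : t ∩ W = t := Finset.eq_of_subset_of_card_le Finset.inter_subset_left (by
      rw [h, hT.card t ht])
    exact Finset.inter_eq_left.mp h1

/-- double counting -/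
theorem cn : StmtCN := by
  intro V _ T hT W
  have h1 := sum_deg hT W
  have h2 := sum_edge hT W
  have h3 := trW_eq hT W
  rw [Finset.sum_sub_distrib, Finset.sum_const, nsmul_eq_mul]
  have h4 : (∑ x ∈ W, (dg T x : ℤ)) = tk T W 1 + 2 * tk T W 2 + 3 * tk T W 3 := by
    exact_mod_cast h1
  rw [h4]
  unfold chiW
  rw [h3]
  have h5 : 2 * ((edW T W).card : ℤ) = tk T W 2 + 3 * tk T W 3 := by exact_mod_cast h2
  linarith

end Pool.Agent.Helper77.KC
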