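import Pool.Agent.Helper53.KC.Goals

/-!
# KC-DET: the rules are sound (`MP_8c9d5b_co`)
-/

namespace Pool.Agent.Helper77.KC

open Finset Pool.Agent.Helper53.KC

theorem det : DetStmt := by
  classical
  intro n r t Δ M L X hM h1 h2 hL hX hdet
  obtain ⟨hE, hR⟩ := hM
  have hXc : X.card = r := (mem_powersetCard.1 hX).2
  rw [NB, mem_filter]
  refine ⟨hX, fun hI => ?_⟩
  -- `X` is a base
  have hB : M.IsBase (X : Set (Fin n)) := by
    haveI : M.RankFinite := by
      rw [← Matroid.eRank_ne_top_iff, hR]
      exact ENat.coe_ne_top r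
    refine hI.isBase_of_eRk_ge ?_ ?_
    · exact X.finite_toSet
    · rw [hI.eRk_eq_encard, Set.encard_coe_eq_coe_finsetCard, hXc, hR]
  have hmem : ∀ Y ∈ L, ¬ M.Indep (Y : Set (Fin n)) := by
    intro Y hY
    have := hL hY
    rw [NB, mem_filter] at this
    exact this.2
  rcases hdet with ⟨C, hC, hCX⟩ | ⟨H, hH, hXH⟩ | ⟨f, hf, hno, hcard⟩ | ⟨e, he, hno, hcard⟩
  · rw [thC, mem_filter] at hC
    exact hC.2.1.not_indep (hI.subset (by exact_mod_cast hCX))
  · rw [thH, mem_filter] at hH
    have hK := hH.2.1
    have hd := hB.compl_isBase_dual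
    have hsub : ((Hᶜ : Finset (Fin n)) : Set (Fin n)) ⊆ M.E \ (X : Set (Fin n)) := by
      rw [hE]
      intro x hx
      refine ⟨Set.mem_univ x, fun hxX => ?_⟩
      have : x ∈ Hᶜ := by exact_mod_cast hx
      exact (mem_compl.1 this) (hXH (by exact_mod_cast hxX))
    exact hK.not_indep (hd.indep.subset hsub)
  · -- the circuit in `insert f X`
    have hfX : f ∉ (X : Set (Fin n)) := by exact_mod_cast hf
    have hfE : f ∈ M.E := by rw [hE]; exact Set.mem_univ f
    have hcirc := hB.fundCircuit_isCircuit hfE hfX
    set C : Finset (Fin n) := (M.fundCircuit f (X : Set (Fin n))).toFinset with hCdef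
    have hCc : (C : Set (Fin n)) = M.fundCircuit f (X : Set (Fin n)) := by
      rw [hCdef, Set.coe_toFinset]
    have hCsub : C ⊆ insert f X := by
      have := M.fundCircuit_subset_insert f (X : Set (Fin n))
      rw [← hCc] at this
      exact_mod_cast this
    have hcount : ((insert f X).filter fun e => (insert f X).erase e ∈ L) ⊆ (insert f X) \ C := by
      intro e he
      rw [mem_filter] at he
      rw [mem_sdiff]
      refine ⟨he.1, fun heC => ?_⟩
      have h3 : e ∈ M.fundCircuit f (X : Set (Fin n)) := by
        rw [← hCc]; exact_mod_cast heC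
      rw [hI.mem_fundCircuit_iff (by rw [hB.closure_eq]; exact hfE) hfX] at h3
      refine hmem _ he.2 ?_
      rw [coe_erase, coe_insert]
      exact h3
    have h4 := card_le_card hcount
    rw [card_sdiff_of_subset hCsub, card_insert_of_notMem hf, hXc] at h4
    have h5 : C.card ≤ r + 1 := by
      have := card_le_card hCsub
      rw [card_insert_of_notMem hf, hXc] at this
      exact this
    refine hno C ?_ hCsub
    rw [thC, mem_filter]
    refine ⟨mem_univ _, ?_, by omega⟩
    rw [hCc]
    exact hcirc
  · -- the cocircuit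
    have heX : e ∈ (X : Set (Fin n)) := by exact_mod_cast he
    have hcoc := Matroid.fundCocircuit_isCocircuit heX hB
    set K : Finset (Fin n) := (M.fundCocircuit e (X : Set (Fin n))).toFinset with hKdef
    have hKc : (K : Set (Fin n)) = M.fundCocircuit e (X : Set (Fin n)) := by
      rw [hKdef, Set.coe_toFinset]
    have hKX : ∀ g ∈ K, g ∈ X → g = e := by
      intro g hg hgX
      have : g ∈ (M.fundCocircuit e (X : Set (Fin n))) ∩ (X : Set (Fin n)) := by
        refine ⟨?_, by exact_mod_cast hgX⟩
        rw [← hKc]; exact_mod_cast hg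
      rw [M.fundCocircuit_inter_eq heX] at this
      exact this
    have hKsub : K ⊆ (X.erase e)ᶜ := by
      intro g hg
      rw [mem_compl, mem_erase]
      rintro ⟨h3, h4⟩
      exact h3 (hKX g hg h4)
    have hcount : (univ.filter fun g => g ∉ X.erase e ∧ insert g (X.erase e) ∈ L) ⊆
        (X.erase e)ᶜ \ K := by
      intro g hg
      rw [mem_filter] at hg
      rw [mem_sdiff, mem_compl]
      refine ⟨hg.2.1, fun hgK => ?_⟩
      refine hmem _ hg.2.2 ?_
      by_cases hgX : g ∈ X
      · rw [hKX g hgK hgX, insert_erase he]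
        exact hI
      · have hge : g ≠ e := fun h => hgX (h ▸ he)
        have h3 : g ∈ M.fundCocircuit e (X : Set (Fin n)) := by
          rw [← hKc]; exact_mod_cast hgK
        rw [hB.mem_fundCocircuit_iff_mem_fundCircuit] at h3
        have hgX' : g ∉ (X : Set (Fin n)) := by exact_mod_cast hgX
        rw [hI.mem_fundCircuit_iff (by rw [hB.closure_eq, hE]; exact Set.mem_univ g) hgX'] at h3
        rw [← erase_insert_of_ne hge, coe_erase, coe_insert]
        exact h3
    have h4 := card_le_card hcount
    have hr1 : 1 ≤ r := by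
      rw [← hXc]
      exact card_pos.2 ⟨e, he⟩
    have hrn : r ≤ n := by
      rw [← hXc]
      simpa using card_le_univ X
    have hce : (X.erase e).card = r - 1 := by rw [card_erase_of_mem he, hXc]
    have hcc : ((X.erase e)ᶜ).card = n - (r - 1) := by rw [card_compl, Fintype.card_fin, hce]
    rw [card_sdiff_of_subset hKsub, hcc] at h4
    have h5 : K.card ≤ n - (r - 1) := by
      have := card_le_card hKsub
      rw [hcc] at this
      exact this
    have h6 : (Kᶜ : Finset (Fin n)).card = n - K.card := by rw [card_compl, Fintype.card_fin]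
    refine hno Kᶜ ?_ ?_
    · rw [thH, mem_filter]
      refine ⟨mem_univ _, ?_, by omega⟩
      rw [compl_compl, hKc]
      exact hcoc
    · intro x hx
      rw [mem_compl]
      intro hxK
      exact (mem_compl.1 (hKsub hxK)) hx

end Pool.Agent.Helper77.KC
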