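import Pool.Agent.Helper80.KC.Goals

/-!
Project KC (MP_eaa1a7_co), packet ISO (helper77): simultaneous isometries.
-/

set_option autoImplicit false

open Module Pool.Agent.Helper80.KC

namespace Pool.Agent.Helper77.KC

/-- a Euclidean space of dimension at most `m` has an isometry to `ℝ^m`. -/
theorem exists_isom (m : ℕ) (W : Type) [NormedAddCommGroup W] [InnerProductSpace ℝ W]
    [FiniteDimensional ℝ W] (h : finrank ℝ W ≤ m) : Nonempty (W →ₗᵢ[ℝ] E m) := by
  have b := stdOrthonormalBasis ℝ W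
  have c := EuclideanSpace.basisFun (Fin m) ℝ
  let f : W →ₗ[ℝ] E m := b.toBasis.constr ℝ (fun i => c (Fin.castLE h i))
  refine ⟨f.isometryOfOrthonormal (v := b.toBasis) ?_ ?_⟩
  · rw [OrthonormalBasis.coe_toBasis]
    exact b.orthonormal
  · have h1 : (f ∘ b.toBasis) = c ∘ Fin.castLE h := by
      funext i
      exact Basis.constr_basis _ _ _ i
    rw [h1]
    exact c.orthonormal.comp _ (Fin.castLE_injective h)

/-- **ISO** -/
theorem goalISO : G_ISO := by
  intro V _ _ _ X
  by_cases hX : finrank ℝ X ≤ 6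
  · obtain ⟨ι⟩ := exists_isom 6 X hX
    have key : ∀ Y : Submodule ℝ V, X ≤ Y → finrank ℝ Y ≤ 6 → ∃ T : V →ₗ[ℝ] E 6,
        (∀ y ∈ Y, ‖T y‖ = ‖y‖) ∧ ∀ x : X, T x = ι x := by
      intro Y hXY hY
      obtain ⟨ψ⟩ := exists_isom 6 Y hY
      let g : X →ₗᵢ[ℝ] E 6 :=
        { toLinearMap := ψ.toLinearMap ∘ₗ Submodule.inclusion hXY
          norm_map' := by
            intro x
            rw [LinearMap.comp_apply]
            exact ψ.norm_map _ }
      let L : LinearMap.range g.toLinearMap →ₗᵢ[ℝ] E 6 :=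
        ι.comp g.equivRange.symm.toLinearIsometry
      refine ⟨L.extend.toLinearMap ∘ₗ ψ.toLinearMap ∘ₗ (Y.orthogonalProjectionOnto : V →ₗ[ℝ] Y),
        ?_, ?_⟩
      · intro y hy
        have h1 : Y.orthogonalProjectionOnto y = ⟨y, hy⟩ :=
          Submodule.orthogonalProjectionOnto_mem_subspace_eq_self ⟨y, hy⟩
        rw [LinearMap.comp_apply, LinearMap.comp_apply]
        have h2 : ((Y.orthogonalProjectionOnto : V →ₗ[ℝ] Y) y) = ⟨y, hy⟩ := h1
        rw [h2]
        have h3 : ‖L.extend (ψ ⟨y, hy⟩)‖ = ‖y‖ := by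
          rw [LinearIsometry.norm_map, LinearIsometry.norm_map]
          rfl
        exact h3
      · intro x
        have h1 : Y.orthogonalProjectionOnto (x : V) = ⟨x, hXY x.2⟩ :=
          Submodule.orthogonalProjectionOnto_mem_subspace_eq_self ⟨(x : V), hXY x.2⟩
        rw [LinearMap.comp_apply, LinearMap.comp_apply]
        have h2 : ((Y.orthogonalProjectionOnto : V →ₗ[ℝ] Y) (x : V)) = ⟨x, hXY x.2⟩ := h1
        rw [h2]
        have h3 : L.extend (ψ ⟨x, hXY x.2⟩) = ι x := by
          have h4 : ψ ⟨x, hXY x.2⟩ = ((g.equivRange x : LinearMap.range g.toLinearMap) : E 6) :=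
            rfl
          rw [h4, LinearIsometry.extend_apply]
          have h5 : L (g.equivRange x) = ι (g.equivRange.symm (g.equivRange x)) := rfl
          rw [h5, LinearIsometryEquiv.symm_apply_apply]
        exact h3
    classical
    choose! T hT using key
    refine ⟨T, fun Y h1 h2 => (hT Y h1 h2).1, ?_⟩
    intro Y Y' h1 h1' h2 h2' x hx
    rw [(hT Y h1 h2).2 ⟨x, hx⟩, (hT Y' h1' h2').2 ⟨x, hx⟩]
  · have h0 : ∀ Y : Submodule ℝ V, X ≤ Y → finrank ℝ Y ≤ 6 → False := by
      intro Y h1 h2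
      exact hX ((Submodule.finrank_mono h1).trans h2)
    exact ⟨fun _ => 0, fun Y h1 h2 => (h0 Y h1 h2).elim,
      fun Y _ h1 _ h2 _ => (h0 Y h1 h2).elim⟩

end Pool.Agent.Helper77.KC
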